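import Mathlib
import Pool.Agent.U955.KO.ProLie

/-!
# MP_607283_al, Q2: every abelian pro-Lie group is the intersection of the kernels of all ordinary
representations of some pro-Lie group
-/

set_option autoImplicit false

namespace Pool.Agent.Results.MP_607283_al.ProLieKernel

open Topology Pool.Agent.R627.KOHeis Pool.Agent.U955.KO

universe u

/-- For every abelian pro-Lie group `A` there is a pro-Lie group `G` such that `A` is isomorphic, as a
topological group, with the intersection `KO G` of the kernels of all continuous homomorphisms
`G → GL_n(ℂ)`. If `A` is locally compact, then `G` is locally compact as well. -/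
theorem result (A : Type u) [CommGroup A] [TopologicalSpace A] [IsTopologicalGroup A]
    (hA : ProLie A) :
    ∃ (G : Type u) (_ : Group G) (_ : TopologicalSpace G) (_ : IsTopologicalGroup G),
      ProLie G ∧ Nonempty (A ≃ₜ* KO G) ∧ (LocallyCompactSpace A → LocallyCompactSpace G) :=
  ⟨Heis A, inferInstance, inferInstance, inferInstance, prolie_heis hA, ⟨koEquiv A⟩,
    fun _ => inferInstance⟩

end Pool.Agent.Results.MP_607283_al.ProLieKernel
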